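import Pool.Agent.Y354.PB.Final2

set_option autoImplicit false
open scoped Pointwise

namespace Pool.Agent.Results.MP_626a77_co.PolylogFoldSumsInt

/-- Freiman-Ruzsa theorem in the integers with polynomially many translates of a proper convex
progression of dimension `O(log K)` inside a polylogarithmic difference set.
For `0 < ε ≤ 1`, a natural number `R ≥ 1` and a finite nonempty set `A` of integers with
`|A+A| ≤ K|A|` there are `d ≤ 720 log (2K)`, a symmetric convex body `B ⊆ ℝ^d` and integers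
`v_1, ..., v_d` such that `(2K)^(720/ε)` translates, by elements of `A`, of the convex progression
`P = {∑ v_i x_i : x ∈ ℤ^d ∩ B}` cover `A`; one of them contains `|A|/(2K)^(720/ε)` elements of `A`;
the `R`-dilate `{∑ v_i x_i : x ∈ ℤ^d ∩ RB}` is proper, has volume at most
`exp ((500000/ε) log (2K) (R² log (2K))^ε) |A|`, and lies in `NA - NA` for some
`N ≤ (6·10⁷/ε)³ (R² log (2K))^(2+ε)`. -/
theorem result (ε K : ℝ) (hε : 0 < ε) (hε1 : ε ≤ 1) (R : ℕ) (hR : 1 ≤ R)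
    (A : Finset ℤ) (hA : A.Nonempty) (hK : ((A + A).card : ℝ) ≤ K * (A.card : ℝ)) :
    ∃ (N d : ℕ) (B : Set (Fin d → ℝ)) (v : Fin d → ℤ) (T : Finset ℤ),
      (N : ℝ) ≤ (60000000 / ε) ^ 3 * ((R : ℝ) ^ 2 * Real.log (2 * K)) ^ (2 + ε) ∧
      (d : ℝ) ≤ 720 * Real.log (2 * K) ∧
      Convex ℝ B ∧ IsCompact B ∧ (interior B).Nonempty ∧ (∀ x ∈ B, -x ∈ B) ∧
      (∀ x : Fin d → ℤ, (fun i => (x i : ℝ) / R) ∈ B → ∃ u w : Fin N → ℤ,
        (∀ i, u i ∈ A) ∧ (∀ i, w i ∈ A) ∧ ∑ i, v i * x i = ∑ i, u i - ∑ i, w i) ∧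
      (∀ x y : Fin d → ℤ, (fun i => (x i : ℝ) / R) ∈ B → (fun i => (y i : ℝ) / R) ∈ B →
        ∑ i, v i * x i = ∑ i, v i * y i → x = y) ∧
      ({x : Fin d → ℤ | (fun i => (x i : ℝ) / R) ∈ B}.ncard : ℝ) ≤
        Real.exp (500000 / ε * Real.log (2 * K) * ((R : ℝ) ^ 2 * Real.log (2 * K)) ^ ε) *
          (A.card : ℝ) ∧
      T ⊆ A ∧ (T.card : ℝ) ≤ (2 * K) ^ (720 / ε) ∧
      (∀ a ∈ A, ∃ t ∈ T, ∃ x : Fin d → ℤ, (fun i => (x i : ℝ)) ∈ B ∧ a = t + ∑ i, v i * x i) ∧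
      ∃ t ∈ T, ∃ S ⊆ A, (A.card : ℝ) ≤ (2 * K) ^ (720 / ε) * (S.card : ℝ) ∧
        ∀ a ∈ S, ∃ x : Fin d → ℤ, (fun i => (x i : ℝ)) ∈ B ∧ a = t + ∑ i, v i * x i := by
  classical
  obtain ⟨N, d, B, ψ, H, T, hN, hd, hB, hH, hin, hinj, hvol, hTA, hT, hcov⟩ :=
    Pool.Agent.Y354.PB.main_all hε hε1 hR hA hK
  have hHbot : ∀ h ∈ H, h = 0 := by
    intro h hh
    have h1 : Nat.card H • (⟨h, hh⟩ : H) = 0 := card_nsmul_eq_zero'
    have h2 : Nat.card H • h = 0 := by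
      have h3 := congrArg H.subtype h1
      rw [map_nsmul, map_zero] at h3
      exact h3
    have h4 : Nat.card H ≠ 0 := Nat.card_pos.ne'
    rw [nsmul_eq_mul] at h2
    rcases mul_eq_zero.1 h2 with h5 | h5
    · exact absurd (by exact_mod_cast h5) h4
    · exact h5
  have hHcard : Nat.card H = 1 := by
    rw [Nat.card_eq_one_iff_unique]
    refine ⟨⟨fun a b => Subtype.ext ?_⟩, ⟨0⟩⟩
    rw [hHbot a.1 a.2, hHbot b.1 b.2]
  have hψ : ∀ x : Fin d → ℤ, ψ x = ∑ i, ψ (Pi.single i 1) * x i := by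
    intro x
    have h1 : x = ∑ i, x i • (Pi.single i 1 : Fin d → ℤ) := by
      funext j
      rw [Finset.sum_apply]
      simp [Pi.single_apply]
    conv_lhs => rw [h1]
    rw [map_sum]
    apply Finset.sum_congr rfl
    intro i _
    rw [map_zsmul, smul_eq_mul, mul_comm]
  have hcov' : ∀ a ∈ A, ∃ t ∈ T, ∃ x : Fin d → ℤ, (fun i => (x i : ℝ)) ∈ B ∧
      a = t + ∑ i, ψ (Pi.single i 1) * x i := by
    intro a ha
    obtain ⟨t, ht, x, hx, h, hh, e⟩ := hcov a ha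
    refine ⟨t, ht, x, hx, ?_⟩
    rw [e, hHbot h hh, add_zero, hψ x]
  refine ⟨N, d, B, fun i => ψ (Pi.single i 1), T, hN, hd, hB.1, hB.2.1, hB.2.2.1, hB.2.2.2,
    ?_, ?_, ?_, hTA, hT, hcov', ?_⟩
  · intro x hx
    obtain ⟨u, w, hu, hw, e⟩ := Pool.Agent.Y354.PB.DS_fin (hin x hx 0 H.zero_mem)
    refine ⟨u, w, hu, hw, ?_⟩
    rw [← hψ x, ← e, add_zero]
  · intro x y hx hy e
    have h1 : ψ x + 0 = ψ y + 0 := by rw [hψ x, hψ y, e]
    exact (hinj x y hx hy 0 H.zero_mem 0 H.zero_mem h1).1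
  · rw [hHcard, Nat.cast_one, mul_one] at hvol
    exact hvol
  · choose f hf using hcov'
    have hTne : T.Nonempty := by
      obtain ⟨a, ha⟩ := hA
      exact ⟨_, (hf a ha).1⟩
    let S : ℤ → Finset ℤ := fun t => A.filter fun a => ∃ x : Fin d → ℤ,
      (fun i => (x i : ℝ)) ∈ B ∧ a = t + ∑ i, ψ (Pi.single i 1) * x i
    have hsub : A ⊆ T.biUnion S := by
      intro a ha
      rw [Finset.mem_biUnion]
      exact ⟨f a ha, (hf a ha).1, Finset.mem_filter.2 ⟨ha, (hf a ha).2⟩⟩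
    obtain ⟨t, ht, hmax⟩ := T.exists_max_image (fun t => (S t).card) hTne
    have h1 : A.card ≤ T.card * (S t).card := by
      calc A.card ≤ (T.biUnion S).card := Finset.card_le_card hsub
        _ ≤ ∑ s ∈ T, (S s).card := Finset.card_biUnion_le
        _ ≤ ∑ _s ∈ T, (S t).card := Finset.sum_le_sum hmax
        _ = T.card * (S t).card := by rw [Finset.sum_const, smul_eq_mul]
    refine ⟨t, ht, S t, Finset.filter_subset _ _, ?_, fun a ha => (Finset.mem_filter.1 ha).2⟩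
    have h2 : (A.card : ℝ) ≤ (T.card : ℝ) * ((S t).card : ℝ) := by exact_mod_cast h1
    exact h2.trans (mul_le_mul_of_nonneg_right hT (Nat.cast_nonneg _))

end Pool.Agent.Results.MP_626a77_co.PolylogFoldSumsInt
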